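import Pool.Agent.R892.SE.Main
import Pool.Agent.R892.SE.Sharp

/-!
# Small-set expansion in graphs with symmetries

`cut G S` (`Pool/Agent/R892/SE/Base.lean`) is the number of edges of `G` with exactly one endpoint
in `S`, so the expansion of `S` in a `d`-regular graph is `cut G S / (d |S|)`.

1. Let an abelian group `A` act freely, by automorphisms, on a `d`-regular graph with `n` vertices.
If `2 d n log (5 / (δ η)) ≤ |A| log |A|` (so there are `O(log |A|)` orbits of edges) then for ALL
`k` between `δ n` and `n / 2` there is a set of exactly `k` vertices of expansion at most `η`. So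
these graphs are yes instances of `SSE(η, δ)`. Examples: Cayley graphs of abelian groups of
degree at most `c log n`, abelian lifts of fixed graphs.
2. This is best possible up to the constant: for each `η` the group `F_2 ^ m` has Cayley graphs of
degree at most `20 m / η ^ 2` in which all sets of at most `(η / 2) 2 ^ m` vertices have
expansion at least `1 - η`; they are no instances of `SSE(η, δ)` for all `δ ≤ η / 2`.
3. In a vertex-transitive graph one set `T` of expansion `φ` gives for every `k ≤ n / 2` a set of
exactly `k` vertices of expansion at most `(2 + |T| / k) φ + |T| / k`. So for vertex-transitive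
graphs yes instances for small `δ` are yes instances, with twice the expansion, for larger `δ`.

Idea of the proof. The number of representations of `x ∈ A` as a combination, with coefficients
`0, …, L - 1`, of the differences of the ends of the edges is an almost invariant function on `A`;
one of its level sets, lifted to the graph, is a set of at most `n / L` vertices and expansion at
most `1 / L`; take the union of suitable translates and remove some vertices.
-/

set_option autoImplicit false

namespace Pool.Agent.Results.MP_8d8c46_lc.AbelianSymmetry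

open Finset Pool.Agent.R892.SE
open scoped Classical

/-- **Small-set expansion is trivial for graphs with a large abelian group of symmetries.**
(`SSE(η, δ)` asks for a set of `k = δ n` vertices of a `d`-regular graph with at most `η d k` edges
to its complement, against the case that all of them have at least `(1 - η) d k`.) -/
theorem result :
    -- abelian groups of automorphisms with few orbits of edges
    (∀ η δ : ℝ, 0 < η → η ≤ 1 → 0 < δ → δ ≤ 1 / 2 →
      ∀ (V : Type) [Fintype V] (G : SimpleGraph V) (d : ℕ), 0 < Fintype.card V → 0 < d →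
        (∀ v, (univ.filter fun w => G.Adj v w).card = d) →
      ∀ (A : Type) [AddCommGroup A] [Fintype A] [AddAction A V],
        (∀ (a : A) (v : V), a +ᵥ v = v → a = 0) →
        (∀ (a : A) (u v : V), G.Adj u v → G.Adj (a +ᵥ u) (a +ᵥ v)) →
        2 * (d * Fintype.card V) * Real.log (5 / (δ * η)) ≤
          Fintype.card A * Real.log (Fintype.card A) →
      ∀ k : ℕ, δ * Fintype.card V ≤ k → 2 * k ≤ Fintype.card V →
        ∃ S : Finset V, S.card = k ∧ (cut G S : ℝ) ≤ η * (d * k)) ∧
    -- the number of orbits cannot be larger than a constant times `log |A|`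
    (∀ η : ℝ, 0 < η → η ≤ 1 → ∃ m₀ : ℕ, ∀ m : ℕ, m₀ ≤ m →
      ∃ (d : ℕ) (S₀ : Finset (Fin m → ZMod 2)), 0 < d ∧ (d : ℝ) ≤ 20 * m / η ^ 2 ∧
        S₀.card = d ∧ (∀ x y, (cay S₀).Adj x y ↔ x + y ∈ S₀) ∧
        (∀ v, (univ.filter fun w => (cay S₀).Adj v w).card = d) ∧
        ∀ S : Finset (Fin m → ZMod 2), (S.card : ℝ) ≤ η / 2 * 2 ^ m →
          (1 - η) * (d * S.card) ≤ cut (cay S₀) S) ∧
    -- vertex-transitive graphs
    (∀ (V : Type) [Fintype V] (G : SimpleGraph V) (d : ℕ),
        (∀ v, (univ.filter fun w => G.Adj v w).card = d) →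
        (∀ u v : V, ∃ e : G ≃g G, e u = v) →
      ∀ T : Finset V, T.Nonempty → ∀ k : ℕ, 0 < k → 2 * k ≤ Fintype.card V →
        ∃ S : Finset V, S.card = k ∧ (cut G S : ℝ) / (d * k) ≤
          (2 + T.card / k) * ((cut G T : ℝ) / (d * T.card)) + T.card / k) := by
  refine ⟨?_, ?_, ?_⟩
  · intro η δ h1 h2 h3 h4 V _ G d hV hd0 hd A _ _ _ hfree hG hlog k hk1 hk2
    exact abelian_final h1 h2 h3 h4 hfree hd hG hV hd0 hlog hk1 hk2
  · intro η h1 h2
    obtain ⟨m₀, h⟩ := sharp h1 h2
    refine ⟨m₀, fun m hm => ?_⟩
    obtain ⟨d, S₀, h3, h4, h5, h6, h7⟩ := h m hm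
    exact ⟨d, S₀, h3, h4, h6, cay_adj h5, fun v => (cay_degree h5 v).trans h6, h7⟩
  · intro V _ G d hd htr T hT k hk0 hk
    obtain ⟨S, hS1, hS2⟩ := transitive_spread hd htr T hT hk
    refine ⟨S, hS1, ?_⟩
    have hT0 : (0 : ℝ) < T.card := by exact_mod_cast hT.card_pos
    have hk0' : (0 : ℝ) < k := by exact_mod_cast hk0
    rcases Nat.eq_zero_or_pos d with h0 | h0
    · subst h0
      simp only [Nat.cast_zero, zero_mul, div_zero, mul_zero, zero_add]
      positivity
    · have hd0 : (0 : ℝ) < d := by exact_mod_cast h0
      have h1 : (cut G S : ℝ) * T.card ≤ (2 * k + T.card) * cut G T + d * T.card * T.card := by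
        exact_mod_cast hS2
      rw [div_le_iff₀ (by positivity)]
      refine le_of_mul_le_mul_right (h1.trans (le_of_eq ?_)) hT0
      field_simp

end Pool.Agent.Results.MP_8d8c46_lc.AbelianSymmetry
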