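import Pool.Agent.R562.RS.Sse

set_option autoImplicit false

/-!
# Reductions to small-set expansion which are computed by formulas

The definitions used in the statement are `sens` and `avgSens` (average sensitivity) and `parity` in
`Pool/Agent/R562/RS/Core.lean`, `Formula`, `Formula.eval` and `Formula.size` in
`Pool/Agent/R562/RS/Khr.lean`, and `Lists`, `cut`, `SseYes`, `SseNo`, `SseCorrect`, `SseReduction`
in `Pool/Agent/R562/RS/Sse.lean`.

A reduction from a Boolean function `f` of `N` bits to the gap problem of small-set expansion
computes adjacency lists of a `d`-regular graph, whose vertices are encoded by `b` bits each. If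
every bit of the lists is computed by a De Morgan formula with at most `L` leaves (for every value
of the random seed), then `b √L ≥ (1 - 2 e) (1 - ε - η) (k / n) avgSens f`, where `e` is the error
probability of the reduction and `k / n` is the density of the sets. For parity this means
`L ≥ c N ^ 2 / b ^ 2`, for graphs with `N ^ O(1)` vertices `L ≥ c' N ^ 2 / log ^ 2 N`, while parity
has formulas of size `O(N ^ 2)`. So small-set expansion is not hard for NP, or even for parity,
under reductions computed by (randomized) formulas of size `N ^ (2 - ε)`.

Proof: A yes instance and a no instance differ in a fraction `(1 - ε - η) k / n` of the entries. So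
some bit has average sensitivity at least `(1 - 2 e) (1 - ε - η) (k / n) avgSens f / b`. By
Khrapchenko's theorem the average sensitivity of a formula is at most the square root of its size.
-/

namespace Pool.Agent.Results.MP_8d8c46_lc.FormulaReductions

open Pool.Agent.R562.RS

theorem result :
    (∀ (N L d k b : ℕ) (V Ω : Type) [Fintype V] [Fintype Ω] [Nonempty Ω] (ε η e : ℝ)
      (f : (Fin N → Bool) → Bool) (nb : Ω → (Fin N → Bool) → V → Fin d → V)
      (code : V → Fin b → Bool),
      1 ≤ d → 1 ≤ k → k ≤ Fintype.card V → ε + η ≤ 1 → Function.Injective code →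
      SseReduction f nb k ε η e →
      (∀ ω v j l, ∃ F : Formula N, F.size ≤ L ∧ ∀ x, F.eval x = code (nb ω x v j) l) →
      (1 - 2 * e) * ((1 - ε - η) * (k / Fintype.card V)) * avgSens f ≤ b * Real.sqrt L) ∧
    ∀ N : ℕ, avgSens (parity N) = N := by
  refine ⟨?_, avgSens_parity⟩
  intro N L d k b V Ω _ _ _ ε η e f nb code hd hk hkV hεη hcode hr hF
  refine sse_avg hd hk hkV hεη hr fun ω v j => ?_
  rw [mul_assoc]
  refine sens_encode _ code hcode fun l => ?_
  obtain ⟨F, hL, hF⟩ := hF ω v j l
  have h1 : (fun x => code (nb ω x v j) l) = F.eval := funext fun x => (hF x).symm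
  rw [h1]
  refine (sens_formula F).trans ?_
  have h2 : Real.sqrt F.size ≤ Real.sqrt L := Real.sqrt_le_sqrt (by exact_mod_cast hL)
  exact mul_le_mul_of_nonneg_right h2 (by positivity)

end Pool.Agent.Results.MP_8d8c46_lc.FormulaReductions
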