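import Pool.Agent.R562.RS.Sse

set_option autoImplicit false

/-!
# Reductions to small-set expansion which are computed by circuits with few NOT gates

The definitions used in the statement are `NotCircuit` and `NotCircuit.out` in
`Pool/Agent/R562/RS/Neg.lean` and `Lists`, `cut`, `SseYes`, `SseNo`, `SseCorrect`, `SseReduction` in
`Pool/Agent/R562/RS/Sse.lean`.

A reduction from a Boolean function `f` of `N` bits to the gap problem of small-set expansion
computes adjacency lists of a `d`-regular graph, whose vertices are encoded by `b` bits each.
Suppose that the value of `f` alternates `n` times along some chain of inputs, and that for every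
value of the random seed all bits of the lists are computed by one circuit with `t` NOT gates and
any number of other gates, each of which computes an arbitrary nondecreasing function. Then
`b (2 ^ (t + 1) - 1) ≥ (1 - 2 e) (1 - ε - η) (k / |V|) n`, where `e` is the error probability of the
reduction and `k / |V|` is the density of the sets.

By the theorem of Markov exactly about `log n` NOT gates are needed for `f` itself. So for graphs
with `N ^ O(1)` vertices a reduction needs at least `log n - log log N - O(1)` NOT gates, which is
nearly the number that is needed to compute `f` (and then no reduction is necessary): there is no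
hardness proof for small-set expansion by reductions with fewer NOT gates, of any size. For parity
`n = N`.

Proof: Two consecutive members of the chain have different answers, so the two outputs differ in a
fraction `(1 - ε - η) k / |V|` of the entries. By Markov's argument each bit changes at most
`2 ^ (t + 1) - 1` times along the chain.
-/

namespace Pool.Agent.Results.MP_8d8c46_lc.NotGates

open Pool.Agent.R562.RS

theorem result (N t d k b n : ℕ) (V Ω : Type) [Fintype V] [Fintype Ω] [Nonempty Ω] (ε η e : ℝ)
    (f : (Fin N → Bool) → Bool) (c : ℕ → Fin N → Bool) (nb : Ω → (Fin N → Bool) → V → Fin d → V)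
    (code : V → Fin b → Bool) (hd : 1 ≤ d) (hk : 1 ≤ k) (hkV : k ≤ Fintype.card V)
    (hεη : ε + η ≤ 1) (hcode : Function.Injective code)
    (hc : ∀ s i, c s i ≤ c (s + 1) i) (hf : ∀ s < n, f (c (s + 1)) ≠ f (c s))
    (hr : SseReduction f nb k ε η e)
    (hC : ∀ ω, ∃ C : NotCircuit N t ((V × Fin d) × Fin b),
      ∀ x v j l, C.out x ((v, j), l) = code (nb ω x v j) l) :
    (1 - 2 * e) * ((1 - ε - η) * (k / Fintype.card V)) * n ≤ b * (2 ^ (t + 1) - 1) := by
  classical
  have := sse_nonempty (f := f) (nb := nb) (ε := ε) (η := η) (e := e) hd hkV hk
  choose C hC using hC
  refine not_gates (J := V × Fin d) f c hc n hf (fun ω x p => nb ω x p.1 p.2) code hcode C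
    (fun ω x j l => hC ω x j.1 j.2 l) (fun ω x => SseCorrect (f x) (nb ω x) k ε η) ?_ hr ?_
  · have : 0 ≤ 1 - ε - η := by linarith
    positivity
  · intro ω x x' h1 h2 h3 h4
    exact sse_gap hd hk (h3.1 h1) (h4.2 h2)

end Pool.Agent.Results.MP_8d8c46_lc.NotGates
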