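import Pool.Agent.R562.RS.Sse

set_option autoImplicit false

/-!
# Reductions to small-set expansion whose output is computed by quantum queries

The definitions used in the statement are `sens` and `avgSens` (average sensitivity) and `parity` in
`Pool/Agent/R562/RS/Core.lean`, `QuantumAlgorithm` and `QuantumAlgorithm.prob` in
`Pool/Agent/R562/RS/Quant.lean`, and `Lists`, `cut`, `SseYes`, `SseNo`, `SseCorrect`,
`SseReduction` in `Pool/Agent/R562/RS/Sse.lean`.

A reduction from a Boolean function `f` of `N` bits to the gap problem of small-set expansion
computes adjacency lists of a `d`-regular graph. Suppose that every entry of the lists is computed,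
with error probability at most `q`, by a quantum algorithm with `T` queries to the `N` bits; its
other operations are free. Then `2 T ≥ (1 - 2 √(q (1 - q))) (1 - 2 e) (1 - ε - η) (k / n) avgSens f`
where `e` is the error probability of the reduction and `k / n` is the density of the sets. For
parity the average sensitivity is `N`, and parity itself has quantum query complexity `⌈N / 2⌉`. So
up to a constant factor every reduction from parity must compute parity for the average entry, and
there is no NP-hardness proof for small-set expansion by reductions with `o(N)` quantum queries per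
entry.

Proof: A yes instance and a no instance differ in a fraction `(1 - ε - η) k / n` of the entries. So
some entry has average sensitivity at least this fraction of that of `f`. The amplitudes of a
quantum algorithm are polynomials of degree at most `T`, so the total influence of the vector of the
amplitudes is at most `4 T`, and it is at least `2 (1 - 2 √(q (1 - q)))` times the average
sensitivity of the entry.
-/

namespace Pool.Agent.Results.MP_8d8c46_lc.QuantumReductions

open Pool.Agent.R562.RS

theorem result :
    (∀ (N T d k : ℕ) (V Ω : Type) [Fintype V] [Fintype Ω] [Nonempty Ω] (ε η e q : ℝ)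
      (f : (Fin N → Bool) → Bool) (nb : Ω → (Fin N → Bool) → V → Fin d → V),
      1 ≤ d → 1 ≤ k → k ≤ Fintype.card V → ε + η ≤ 1 → 0 ≤ q → q ≤ 1 / 2 →
      SseReduction f nb k ε η e →
      (∀ ω v j, ∃ A : QuantumAlgorithm N T V, ∀ x, 1 - q ≤ A.prob x (nb ω x v j)) →
      (1 - 2 * Real.sqrt (q * (1 - q))) *
        ((1 - 2 * e) * ((1 - ε - η) * (k / Fintype.card V)) * avgSens f) ≤ 2 * T) ∧
    ∀ N : ℕ, avgSens (parity N) = N := by
  refine ⟨?_, avgSens_parity⟩
  intro N T d k V Ω _ _ _ ε η e q f nb hd hk hkV hεη hq0 hq hr hA
  have hκ : 0 ≤ 1 - 2 * Real.sqrt (q * (1 - q)) := by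
    have h1 : Real.sqrt (q * (1 - q)) ≤ Real.sqrt ((1 / 2) ^ 2) :=
      Real.sqrt_le_sqrt (by nlinarith [sq_nonneg (q - 1 / 2)])
    rw [Real.sqrt_sq (by norm_num)] at h1
    linarith
  rcases hκ.eq_or_lt with h0 | h0
  · rw [← h0, zero_mul]
    positivity
  · have h1 := sse_avg (s := 2 * T / (1 - 2 * Real.sqrt (q * (1 - q)))) hd hk hkV hεη hr (by
      intro ω v j
      obtain ⟨A, hA⟩ := hA ω v j
      have h2 := A.sens_le hq0 hq hA
      rw [div_mul_eq_mul_div, le_div_iff₀ h0, mul_comm]
      exact h2)
    rw [le_div_iff₀ h0] at h1
    linarith

end Pool.Agent.Results.MP_8d8c46_lc.QuantumReductions
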